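import Pool.Agent.N440.LB.Stm2

set_option autoImplicit false

/-!
Cyclic sums with at most two exceptional vertices (leaf LB/CY of helper440's project LB).
-/

namespace Pool.Agent.N558.LB

open Complex Set MeasureTheory Filter Topology

open scoped Real ComplexConjugate

/-- `(w i, r i) = ± (w c, r c)` -/
def PM {n : ℕ} (w : Fin (n + 3) → ℂ) (r : Fin (n + 3) → ℝ) (i c : Fin (n + 3)) : Prop :=
  ∃ ε : ℝ, (ε = 1 ∨ ε = -1) ∧ w i = ε * w c ∧ r i = ε * r c

theorem pm_refl {n : ℕ} (w : Fin (n + 3) → ℂ) (r : Fin (n + 3) → ℝ) (i : Fin (n + 3)) :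
    PM w r i i := ⟨1, Or.inl rfl, by simp, by simp⟩

open Fin.CommRing in
theorem cyc_ind {n : ℕ} (P : Fin (n + 3) → Prop) (a : Fin (n + 3)) (h0 : P a)
    (hs : ∀ i, P i → P (i + 1)) : ∀ i, P i := by
  have h : ∀ m : ℕ, P (a + (m : Fin (n + 3))) := by
    intro m
    induction m with
    | zero => simpa using h0
    | succ m ih =>
      have := hs _ ih
      rwa [add_assoc, ← Nat.cast_succ] at this
  intro i
  have := h ((i - a : Fin (n + 3)) : ℕ)
  rwa [Fin.cast_val_eq_self, add_sub_cancel] at this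

theorem step_mul {x y z : ℂ} {u v t ε δ : ℝ} (hε : ε = 1 ∨ ε = -1) (hδ : δ = 1 ∨ δ = -1)
    (h1 : x = ε * y) (h2 : u = ε * v) (h3 : y = δ * z) (h4 : v = δ * t) :
    ∃ η : ℝ, (η = 1 ∨ η = -1) ∧ x = η * z ∧ u = η * t := by
  refine ⟨ε * δ, ?_, ?_, ?_⟩
  · rcases hε with rfl | rfl <;> rcases hδ with rfl | rfl <;> norm_num
  · rw [h1, h3]; push_cast; ring
  · rw [h2, h4]; ring

theorem indep {x y : ℂ} (hx : ‖x‖ = 1) (hy : ‖y‖ = 1)
    (h : ¬ ∃ δ : ℝ, (δ = 1 ∨ δ = -1) ∧ y = δ * x) {X Y : ℝ} (h0 : (X : ℂ) * x + Y * y = 0) :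
    X = 0 ∧ Y = 0 := by
  have h1 : |X| = |Y| := by
    have h2 : (X : ℂ) * x = -(Y * y) := by linear_combination h0
    have h3 := congrArg norm h2
    rw [norm_mul, norm_neg, norm_mul, hx, hy, mul_one, mul_one, Complex.norm_real,
      Complex.norm_real, Real.norm_eq_abs, Real.norm_eq_abs] at h3
    exact h3
  by_cases hY : Y = 0
  · subst hY
    rw [abs_zero] at h1
    exact ⟨abs_eq_zero.1 h1, rfl⟩
  · exfalso
    apply h
    refine ⟨-(X / Y), ?_, ?_⟩
    · rcases abs_eq_abs.1 h1 with h2 | h2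
      · right; rw [h2, div_self hY]
      · left; rw [h2, neg_div, div_self hY, neg_neg]
    · have hY' : (Y : ℂ) ≠ 0 := by exact_mod_cast hY
      push_cast
      field_simp
      linear_combination h0

theorem t_CY : Pool.Agent.N440.LB.S_CY := by
  intro n w r J a b hw hr hex hsum
  -- every side belongs to `a` or `b`
  have hab : ∀ i, PM w r i a ∨ PM w r i b := by
    refine cyc_ind _ a (Or.inl (pm_refl w r a)) ?_
    intro i hi
    by_cases ha : i + 1 = a
    · left; rw [ha]; exact pm_refl w r a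
    by_cases hb : i + 1 = b
    · right; rw [hb]; exact pm_refl w r b
    obtain ⟨ε, hε, h1⟩ := hex i ha hb
    have h2 := hr i ε hε h1
    rcases hi with ⟨δ, hδ, h3, h4⟩ | ⟨δ, hδ, h3, h4⟩
    · left; exact step_mul hε hδ h1 h2 h3 h4
    · right; exact step_mul hε hδ h1 h2 h3 h4
  by_cases hba : ∃ δ : ℝ, (δ = 1 ∨ δ = -1) ∧ w b = δ * w a
  · obtain ⟨δ, hδ, hδb⟩ := hba
    have hall : ∀ i, ∃ ε : ℝ, (ε = 1 ∨ ε = -1) ∧ w i = ε * w a := by
      intro i
      rcases hab i with ⟨ε, hε, h1, -⟩ | ⟨ε, hε, h1, -⟩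
      · exact ⟨ε, hε, h1⟩
      · obtain ⟨η, hη, h2, -⟩ := step_mul (u := ε * δ) (v := δ) (t := 1) hε hδ h1 rfl hδb (by ring)
        exact ⟨η, hη, h2⟩
    have hpa : ∀ i, PM w r i a := by
      refine cyc_ind _ a (pm_refl w r a) ?_
      rintro i ⟨ε, hε, h1, h2⟩
      obtain ⟨η, hη, h3⟩ := hall (i + 1)
      have hεε : ε * ε = 1 := by rcases hε with rfl | rfl <;> norm_num
      have hεε' : (ε : ℂ) * ε = 1 := by exact_mod_cast hεε
      have h4 : w (i + 1) = ((η * ε : ℝ) : ℂ) * w i := by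
        rw [h3, h1]; push_cast
        linear_combination (-(η : ℂ) * w a) * hεε'
      have h5 : η * ε = 1 ∨ η * ε = -1 := by
        rcases hη with rfl | rfl <;> rcases hε with rfl | rfl <;> norm_num
      have h6 := hr i (η * ε) h5 h4
      refine ⟨η, hη, h3, ?_⟩
      rw [h6, h2]
      linear_combination (η * r a) * hεε
    choose e he h1 h2 using hpa
    have h3 : ((∑ i, J i * e i : ℝ) : ℂ) * w a = 0 := by
      rw [← hsum]; push_cast
      rw [Finset.sum_mul]
      refine Finset.sum_congr rfl fun i _ => ?_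
      rw [h1 i]; ring
    have h4 : w a ≠ 0 := by
      intro h; have := hw a; rw [h, norm_zero] at this; exact zero_ne_one this
    have h5 : (∑ i, J i * e i : ℝ) = 0 := by
      have := (mul_eq_zero.1 h3).resolve_right h4
      exact_mod_cast this
    calc ∑ i, J i * r i = (∑ i, J i * e i) * r a := by
          rw [Finset.sum_mul]
          refine Finset.sum_congr rfl fun i _ => ?_
          rw [h2 i]; ring
      _ = 0 := by rw [h5, zero_mul]
  · have hab' : ∀ i, ∃ x y : ℝ, w i = x * w a + y * w b ∧ r i = x * r a + y * r b := by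
      intro i
      rcases hab i with ⟨ε, -, h1, h2⟩ | ⟨ε, -, h1, h2⟩
      · exact ⟨ε, 0, by rw [h1]; simp, by rw [h2]; simp⟩
      · exact ⟨0, ε, by rw [h1]; simp, by rw [h2]; simp⟩
    choose x y h1 h2 using hab'
    have h3 : ((∑ i, J i * x i : ℝ) : ℂ) * w a + ((∑ i, J i * y i : ℝ) : ℂ) * w b = 0 := by
      rw [← hsum]; push_cast
      rw [Finset.sum_mul, Finset.sum_mul, ← Finset.sum_add_distrib]
      refine Finset.sum_congr rfl fun i _ => ?_
      rw [h1 i]; ring
    obtain ⟨h4, h5⟩ := indep (hw a) (hw b) hba h3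
    calc ∑ i, J i * r i = (∑ i, J i * x i) * r a + (∑ i, J i * y i) * r b := by
          rw [Finset.sum_mul, Finset.sum_mul, ← Finset.sum_add_distrib]
          refine Finset.sum_congr rfl fun i _ => ?_
          rw [h2 i]; ring
      _ = 0 := by rw [h4, h5, zero_mul, zero_mul, add_zero]

end Pool.Agent.N558.LB
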